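import Mathlib

/-!
# A finite equational basis for the variety generated by the three-element algebra `C₃ˢ`

Every algebra satisfying the finite list `basis` is fibrewise Boolean: the elements `z` with
`⊤_z = T` form a Boolean algebra, and every prime ideal of it gives a homomorphism of the elements
above `T` to `C₃ˢ`.
-/

set_option autoImplicit false

namespace Pool.Agent.Q116.C3S

universe u

/-- terms in the signature `(·, ¬, 1)` -/
inductive Tm : Type
  | var : ℕ → Tm
  | one : Tm
  | mul : Tm → Tm → Tm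
  | neg : Tm → Tm
  deriving DecidableEq

/-- algebras of type `(2,1,0)` -/
structure Alg (A : Type u) where
  mul : A → A → A
  neg : A → A
  one : A

def eval {A : Type u} (M : Alg A) (v : ℕ → A) : Tm → A
  | .var n => v n
  | .one => M.one
  | .mul s t => M.mul (eval M v s) (eval M v t)
  | .neg s => M.neg (eval M v s)

/-- the identity `e` holds in `M` -/
def Sat {A : Type u} (M : Alg A) (e : Tm × Tm) : Prop :=
  ∀ v : ℕ → A, eval M v e.1 = eval M v e.2

/-- the algebra `C₃ˢ`: `0` is the unit `1`, `1` is `c` and `2` is `¬ c`; the product is the meet of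
the chain `¬ c < c < 1`. -/
def C3 : Alg (Fin 3) where
  mul := fun x y => max x y
  neg := ![0, 2, 1]
  one := 0

def Tm.subst (σ : ℕ → Tm) : Tm → Tm
  | .var n => σ n
  | .one => .one
  | .mul s t => .mul (s.subst σ) (t.subst σ)
  | .neg s => .neg (s.subst σ)

/-- derivability in equational logic -/
inductive Deriv (E : Set (Tm × Tm)) : Tm → Tm → Prop
  | ax (s t : Tm) (σ : ℕ → Tm) : (s, t) ∈ E → Deriv E (s.subst σ) (t.subst σ)
  | refl (s : Tm) : Deriv E s s
  | symm {s t : Tm} : Deriv E s t → Deriv E t s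
  | trans {s t r : Tm} : Deriv E s t → Deriv E t r → Deriv E s r
  | mul {s s' t t' : Tm} : Deriv E s s' → Deriv E t t' → Deriv E (.mul s t) (.mul s' t')
  | neg {s t : Tm} : Deriv E s t → Deriv E (.neg s) (.neg t)

abbrev X : Tm := .var 0
abbrev Y : Tm := .var 1
abbrev Z : Tm := .var 2

/-- `⊤_t = ¬(¬t · t)` -/
abbrev Tm.top (t : Tm) : Tm := .neg (.mul (.neg t) t)
/-- `⊥_t = t · ¬t` -/
abbrev Tm.bot (t : Tm) : Tm := .mul t (.neg t)

/-- the finite basis -/
def basis : List (Tm × Tm) :=
  [ (.mul (.mul X Y) Z, .mul X (.mul Y Z)),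
    (.mul X Y, .mul Y X),
    (.mul X X, X),
    (.mul .one X, X),
    (.neg (.neg X), X),
    (.neg .one, .one),
    (.mul X.top X, X),
    ((Tm.mul X Y).top, .mul X.top Y.top),
    (X.top.top, X.top),
    ((Tm.mul X Y).bot, .mul X.bot Y.bot),
    (X.top.bot, X.bot),
    (.mul (.neg (.mul X Y.top)) (.neg (.mul (.neg X) Y.top)), (Tm.mul X Y).bot),
    -- absorption for `x·⊤_xy`, `y·⊤_xy`
    (.mul (.mul X (Tm.mul X Y).top)
      (.neg (.mul (.neg (.mul X (Tm.mul X Y).top)) (.neg (.mul Y (Tm.mul X Y).top)))),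
      .mul X (Tm.mul X Y).top),
    -- distributivity for `x·⊤_xyz`, `y·⊤_xyz`, `z·⊤_xyz`
    (.mul (.mul X (Tm.mul X (.mul Y Z)).top)
      (.neg (.mul (.neg (.mul Y (Tm.mul X (.mul Y Z)).top))
        (.neg (.mul Z (Tm.mul X (.mul Y Z)).top)))),
      .neg (.mul (.neg (.mul (.mul X (Tm.mul X (.mul Y Z)).top) (.mul Y (Tm.mul X (.mul Y Z)).top)))
        (.neg (.mul (.mul X (Tm.mul X (.mul Y Z)).top) (.mul Z (Tm.mul X (.mul Y Z)).top))))) ]

theorem basis_sat : ∀ e ∈ basis, Sat C3 e := by
  intro e he v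
  simp only [basis, List.mem_cons, List.not_mem_nil, or_false] at he
  generalize h0 : v 0 = x
  generalize h1 : v 1 = y
  generalize h2 : v 2 = z
  rcases he with h|h|h|h|h|h|h|h|h|h|h|h|h|h <;> subst h <;> simp only [eval, h0, h1, h2] <;>
    clear h0 h1 h2 <;> revert x y z <;> decide

section main

variable {A : Type u} (M : Alg A) (hM : ∀ e ∈ basis, Sat M e)

/-- consequences of the basis in an algebra -/
structure Laws (M : Alg A) : Prop where
  assoc : ∀ x y z, M.mul (M.mul x y) z = M.mul x (M.mul y z)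
  comm : ∀ x y, M.mul x y = M.mul y x
  idem : ∀ x, M.mul x x = x
  one_mul : ∀ x, M.mul M.one x = x
  nn : ∀ x, M.neg (M.neg x) = x
  n1 : M.neg M.one = M.one
  top_mul_self : ∀ x, M.mul (M.neg (M.mul (M.neg x) x)) x = x
  top_mul : ∀ x y, M.neg (M.mul (M.neg (M.mul x y)) (M.mul x y)) =
    M.mul (M.neg (M.mul (M.neg x) x)) (M.neg (M.mul (M.neg y) y))
  top_top : ∀ x, M.neg (M.mul (M.neg (M.neg (M.mul (M.neg x) x))) (M.neg (M.mul (M.neg x) x))) =
    M.neg (M.mul (M.neg x) x)
  bot_mul : ∀ x y, M.mul (M.mul x y) (M.neg (M.mul x y)) =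
    M.mul (M.mul x (M.neg x)) (M.mul y (M.neg y))
  bot_top : ∀ x, M.mul (M.neg (M.mul (M.neg x) x)) (M.neg (M.neg (M.mul (M.neg x) x))) =
    M.mul x (M.neg x)
  compl : ∀ x y, M.mul (M.neg (M.mul x (M.neg (M.mul (M.neg y) y))))
    (M.neg (M.mul (M.neg x) (M.neg (M.mul (M.neg y) y)))) = M.mul (M.mul x y) (M.neg (M.mul x y))
  absorb : ∀ x y T, T = M.neg (M.mul (M.neg (M.mul x y)) (M.mul x y)) →
    M.mul (M.mul x T) (M.neg (M.mul (M.neg (M.mul x T)) (M.neg (M.mul y T)))) = M.mul x T
  distrib : ∀ x y z T, T = M.neg (M.mul (M.neg (M.mul x (M.mul y z))) (M.mul x (M.mul y z))) →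
    M.mul (M.mul x T) (M.neg (M.mul (M.neg (M.mul y T)) (M.neg (M.mul z T)))) =
    M.neg (M.mul (M.neg (M.mul (M.mul x T) (M.mul y T))) (M.neg (M.mul (M.mul x T) (M.mul z T))))

include hM in
theorem laws : Laws M := by
  have key : ∀ e ∈ basis, ∀ x y z : A, eval M (fun n => if n = 0 then x else if n = 1 then y else z) e.1
      = eval M (fun n => if n = 0 then x else if n = 1 then y else z) e.2 :=
    fun e he x y z => hM e he _
  simp only [basis, List.mem_cons, List.not_mem_nil, or_false, forall_eq_or_imp, forall_eq,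
    eval, if_true, if_false, one_ne_zero, OfNat.ofNat_ne_zero, OfNat.ofNat_ne_one] at key
  obtain ⟨h1, h2, h3, h4, h5, h6, h7, h8, h9, h10, h11, h12, h13, h14⟩ := key
  exact ⟨h1, fun x y => h2 x y x, fun x => h3 x x x, fun x => h4 x x x, fun x => h5 x x x,
    h6 M.one M.one M.one, fun x => h7 x x x, fun x y => h8 x y x, fun x => h9 x x x,
    fun x y => h10 x y x, fun x => h11 x x x, fun x y => h12 x y x,
    fun x y T hT => by subst hT; exact h13 x y x,
    fun x y z T hT => by subst hT; exact h14 x y z⟩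

end main


namespace Laws

variable {A : Type u} {M : Alg A} (L : Laws M)

/-- `⊤_x` -/
def top (M : Alg A) (x : A) : A := M.neg (M.mul (M.neg x) x)
/-- `⊥_x` -/
def bot (M : Alg A) (x : A) : A := M.mul x (M.neg x)

include L

theorem lcomm (x y z : A) : M.mul x (M.mul y z) = M.mul y (M.mul x z) := by
  rw [← L.assoc, L.comm x y, L.assoc]

theorem mul_one (x : A) : M.mul x M.one = x := by rw [L.comm, L.one_mul]

theorem tmul (x y : A) : top M (M.mul x y) = M.mul (top M x) (top M y) := L.top_mul x y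
theorem ttop (x : A) : top M (top M x) = top M x := L.top_top x
theorem bmul (x y : A) : bot M (M.mul x y) = M.mul (bot M x) (bot M y) := L.bot_mul x y
theorem btop (x : A) : bot M (top M x) = bot M x := L.bot_top x
theorem tself (x : A) : M.mul (top M x) x = x := L.top_mul_self x
theorem tneg (x : A) : top M (M.neg x) = top M x := by
  unfold top; rw [L.nn, L.comm]
theorem tone : top M M.one = M.one := by
  unfold top; rw [L.n1, L.idem, L.n1]
theorem bone : bot M M.one = M.one := by
  unfold bot; rw [L.n1, L.idem]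
theorem bneg (x : A) : bot M (M.neg x) = bot M x := by
  unfold bot; rw [L.nn, L.comm]
theorem tbot (x : A) : top M (bot M x) = top M x := by
  unfold bot; rw [L.tmul, L.tneg, L.idem]

/-- the fibre of `T` -/
def Fib (M : Alg A) (T : A) : Type u := {z : A // top M z = T}

/-- constructor -/
def Fib.mk (x T : A) (h : top M x = T) : Fib M T := ⟨x, h⟩

omit L in
theorem Fib.ext {T : A} {a b : Fib M T} (h : a.1 = b.1) : a = b := Subtype.ext h

def inf' {T : A} (a b : Fib M T) : Fib M T :=
  ⟨M.mul a.1 b.1, by rw [L.tmul, a.2, b.2, L.idem]⟩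
def neg' {T : A} (a : Fib M T) : Fib M T := ⟨M.neg a.1, by rw [L.tneg, a.2]⟩

/-- the join -/
def sup' {T : A} (a b : Fib M T) : Fib M T := L.neg' (L.inf' (L.neg' a) (L.neg' b))

theorem mulT {T : A} (a : Fib M T) : M.mul a.1 T = a.1 := by
  obtain ⟨a, rfl⟩ := a
  rw [L.comm]; exact L.tself a

theorem absorb' {T : A} (a b : Fib M T) : L.inf' a (L.sup' a b) = a := by
  apply Fib.ext
  have hT : T = M.neg (M.mul (M.neg (M.mul a.1 b.1)) (M.mul a.1 b.1)) := (L.inf' a b).2.symm
  have h := L.absorb a.1 b.1 T hT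
  rw [L.mulT a, L.mulT b] at h
  exact h

theorem distrib' {T : A} (a b c : Fib M T) :
    L.inf' a (L.sup' b c) = L.sup' (L.inf' a b) (L.inf' a c) := by
  apply Fib.ext
  have hT : T = M.neg (M.mul (M.neg (M.mul a.1 (M.mul b.1 c.1))) (M.mul a.1 (M.mul b.1 c.1))) :=
    (L.inf' a (L.inf' b c)).2.symm
  have h := L.distrib a.1 b.1 c.1 T hT
  rw [L.mulT a, L.mulT b, L.mulT c] at h
  exact h

theorem inf_comm' {T : A} (a b : Fib M T) : L.inf' a b = L.inf' b a := Fib.ext (L.comm _ _)
theorem inf_assoc' {T : A} (a b c : Fib M T) : L.inf' (L.inf' a b) c = L.inf' a (L.inf' b c) :=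
  Fib.ext (L.assoc _ _ _)
theorem neg_neg' {T : A} (a : Fib M T) : L.neg' (L.neg' a) = a := Fib.ext (L.nn _)
theorem sup_comm' {T : A} (a b : Fib M T) : L.sup' a b = L.sup' b a := by
  unfold sup'; rw [L.inf_comm']
theorem sup_assoc' {T : A} (a b c : Fib M T) : L.sup' (L.sup' a b) c = L.sup' a (L.sup' b c) := by
  unfold sup'; rw [L.neg_neg', L.neg_neg', L.inf_assoc']
theorem absorb2 {T : A} (a b : Fib M T) : L.sup' a (L.inf' a b) = a := by
  have h := L.absorb' (L.neg' a) (L.neg' b)
  unfold sup' at h ⊢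
  rw [L.neg_neg', L.neg_neg'] at h
  rw [h, L.neg_neg']

/-- the lattice structure of a fibre -/
@[reducible] def lat (T : A) : Lattice (Fib M T) :=
  letI : Max (Fib M T) := ⟨L.sup'⟩
  letI : Min (Fib M T) := ⟨L.inf'⟩
  Lattice.mk' L.sup_comm' L.sup_assoc' L.inf_comm' L.inf_assoc' L.absorb2 L.absorb'

/-- the distributive lattice of a fibre -/
@[reducible] def dlat (T : A) : DistribLattice (Fib M T) :=
  letI := L.lat T
  DistribLattice.ofInfSupLe fun a b c => le_of_eq (L.distrib' a b c)


theorem top_T {T : A} (w : Fib M T) : top M T = T := by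
  have := w.2
  rw [← this, L.ttop]

theorem bot_mul_T {T : A} (w : Fib M T) : M.mul (bot M T) w.1 = bot M T := by
  have e : bot M T = bot M w.1 := by
    have := L.btop w.1
    rw [w.2] at this
    exact this
  rw [e]; unfold bot
  rw [L.comm, ← L.assoc, L.idem]

/-- separation: two different elements of a fibre are separated by a prime filter -/
theorem sep {T : A} (w w' : Fib M T) (h : w ≠ w') : ∃ q : A → Prop,
    (∀ x y, top M x = T → top M y = T → (q (M.mul x y) ↔ q x ∧ q y)) ∧
      (∀ x, top M x = T → (q (M.neg x) ↔ ¬ q x)) ∧ q T ∧ ¬ q (bot M T) ∧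
      ¬ (q w.1 ↔ q w'.1) := by
  let _ := L.dlat T
  wlog hle : ¬ w ≤ w' generalizing w w' with H
  · have hle' : ¬ w' ≤ w := fun h2 => h (le_antisymm (not_not.1 hle) h2)
    obtain ⟨q, h1, h2, h3, h4, h5⟩ := H w' w h.symm hle'
    exact ⟨q, h1, h2, h3, h4, fun h6 => h5 h6.symm⟩
  have hdis : Disjoint ((Order.PFilter.principal w : Order.PFilter (Fib M T)) : Set (Fib M T))
      ((Order.Ideal.principal w' : Order.Ideal (Fib M T)) : Set (Fib M T)) := by
    rw [Set.disjoint_left]
    intro x hx hx'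
    exact hle (le_trans (Order.PFilter.mem_principal.1 hx) (Order.Ideal.mem_principal.1 hx'))
  obtain ⟨P, hP, hw', hPw⟩ := DistribLattice.prime_ideal_of_disjoint_filter_ideal hdis
  have hw : w ∉ P := fun hh =>
    Set.disjoint_left.1 hPw (Order.PFilter.mem_principal.2 le_rfl) hh
  have hw2 : w' ∈ P := hw' (Order.Ideal.mem_principal.2 le_rfl)
  have hTT : top M T = T := L.top_T w
  have hbT : top M (bot M T) = T := by rw [L.tbot, hTT]
  have hT1 : Fib.mk T T hTT ∉ P := fun h1 => hw (P.lower (by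
    have : w ⊓ Fib.mk T T hTT = w := Fib.ext (L.mulT w)
    exact inf_eq_left.1 this) h1)
  have hb1 : Fib.mk (bot M T) T hbT ∈ P := P.lower (by
    have : Fib.mk (bot M T) T hbT ⊓ w' = Fib.mk (bot M T) T hbT := Fib.ext (L.bot_mul_T w')
    exact inf_eq_left.1 this) hw2
  refine ⟨fun x => ∃ hx : top M x = T, Fib.mk x T hx ∉ P, ?_, ?_, ?_, ?_, ?_⟩
  · intro x y hx hy
    have hxy' : top M (M.mul x y) = T := by rw [L.tmul, hx, hy, L.idem]
    have hxy : Fib.mk (M.mul x y) T hxy' = Fib.mk x T hx ⊓ Fib.mk y T hy := rfl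
    constructor
    · rintro ⟨h1, h2⟩
      rw [hxy] at h2
      exact ⟨⟨hx, fun h3 => h2 (P.lower inf_le_left h3)⟩,
        ⟨hy, fun h3 => h2 (P.lower inf_le_right h3)⟩⟩
    · rintro ⟨⟨_, h2⟩, ⟨_, h3⟩⟩
      refine ⟨hxy', fun h4 => ?_⟩
      rw [hxy] at h4
      rcases hP.mem_or_mem h4 with h5 | h5
      · exact h2 h5
      · exact h3 h5
  · intro x hx
    have hnx : top M (M.neg x) = T := by rw [L.tneg, hx]
    constructor
    · rintro ⟨_, h1⟩ ⟨_, h2⟩
      have : Fib.mk x T hx ⊓ Fib.mk (M.neg x) T hnx = Fib.mk (bot M T) T hbT := by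
        apply Fib.ext
        change bot M x = bot M T
        rw [← hx, L.btop]
      have h3 : Fib.mk x T hx ⊓ Fib.mk (M.neg x) T hnx ∈ P := by rw [this]; exact hb1
      rcases hP.mem_or_mem h3 with h5 | h5
      · exact h2 h5
      · exact h1 h5
    · intro h1
      refine ⟨hnx, fun h2 => h1 ⟨hx, fun h3 => hT1 ?_⟩⟩
      have : Fib.mk x T hx ⊔ Fib.mk (M.neg x) T hnx = Fib.mk T T hTT := by
        apply Fib.ext
        change M.neg (M.mul (M.neg x) (M.neg (M.neg x))) = T
        rw [L.nn]; exact hx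
      rw [← this]
      exact P.sup_mem h3 h2
  · exact ⟨hTT, hT1⟩
  · rintro ⟨h1, h2⟩
    exact h2 hb1
  · intro h1
    exact (h1.1 ⟨w.2, hw⟩).2 hw2

open Classical in
/-- the map to `C₃ˢ` given by a prime filter -/
noncomputable def m (M : Alg A) (T : A) (q : A → Prop) (a : A) : Fin 3 :=
  if q (M.mul (bot M a) T) then 0 else if q (M.mul a T) then 1 else 2

theorem hom {T : A} (hTT : top M T = T) (q : A → Prop)
    (hq : ∀ x y, top M x = T → top M y = T → (q (M.mul x y) ↔ q x ∧ q y)) 
    (hqn : ∀ x, top M x = T → (q (M.neg x) ↔ ¬ q x)) (hqT : q T) (hqb : ¬ q (bot M T)) :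
    m M T q M.one = 0 ∧
    (∀ a b, M.mul (top M a) T = T → M.mul (top M b) T = T →
      m M T q (M.mul a b) = C3.mul (m M T q a) (m M T q b)) ∧
    (∀ a, M.mul (top M a) T = T → m M T q (M.neg a) = C3.neg (m M T q a)) := by
  have f1 : ∀ a, M.mul (top M a) T = T → top M (M.mul a T) = T := by
    intro a ha; rw [L.tmul, hTT, ha]
  have f2 : ∀ a, M.mul (top M a) T = T → top M (M.mul (bot M a) T) = T := by
    intro a ha; rw [L.tmul, hTT, L.tbot, ha]
  have f3 : ∀ a b, M.mul (M.mul a b) T = M.mul (M.mul a T) (M.mul b T) := by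
    intro a b
    rw [L.assoc, L.assoc, L.lcomm T b T, L.idem]
  have f4 : ∀ a, M.mul (top M a) T = T → q (M.mul (bot M a) T) → q (M.mul a T) := by
    intro a ha h
    have : M.mul (bot M a) T = M.mul (M.mul a T) (M.mul (M.neg a) T) := by
      unfold bot; exact f3 _ _
    rw [this, hq _ _ (f1 a ha) (f1 _ (by rw [L.tneg, ha]))] at h
    exact h.1
  have f5 : ∀ a, M.mul (top M a) T = T → (q (M.mul (bot M a) T) ↔
      q (M.mul a T) ∧ q (M.mul (M.neg a) T)) := by
    intro a ha
    have : M.mul (bot M a) T = M.mul (M.mul a T) (M.mul (M.neg a) T) := by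
      unfold bot; exact f3 _ _
    rw [this, hq _ _ (f1 a ha) (f1 _ (by rw [L.tneg, ha]))]
  have f7 : ∀ z, top M z = T → (q (M.neg z) ↔ ¬ q z) := hqn
  have f6 : ∀ a, M.mul (top M a) T = T → q (M.mul a T) ∨ q (M.mul (M.neg a) T) := by
    intro a ha
    have h := L.compl a T
    rw [show M.neg (M.mul (M.neg T) T) = T from hTT] at h
    have e : M.mul (M.mul a T) (M.neg (M.mul a T)) = bot M T := by
      have h1 := L.btop (M.mul a T)
      rw [f1 a ha] at h1
      exact h1.symm
    rw [e] at h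
    by_contra hcon
    rw [not_or] at hcon
    apply hqb
    rw [← h, hq _ _ (by rw [L.tneg, f1 a ha]) (by rw [L.tneg, f1 _ (by rw [L.tneg, ha])]),
      f7 _ (f1 a ha), f7 _ (f1 _ (by rw [L.tneg, ha]))]
    exact hcon
  refine ⟨?_, ?_, ?_⟩
  · unfold m
    rw [if_pos]
    rw [L.bone, L.one_mul]; exact hqT
  · intro a b ha hb
    have e1 : q (M.mul (bot M (M.mul a b)) T) ↔ q (M.mul (bot M a) T) ∧ q (M.mul (bot M b) T) := by
      rw [L.bmul, f3, hq _ _ (f2 a ha) (f2 b hb)]
    have e2 : q (M.mul (M.mul a b) T) ↔ q (M.mul a T) ∧ q (M.mul b T) := by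
      rw [f3, hq _ _ (f1 a ha) (f1 b hb)]
    have g1 := f4 a ha
    have g2 := f4 b hb
    unfold m
    rw [e1, e2]
    by_cases h1 : q (M.mul (bot M a) T) <;> by_cases h2 : q (M.mul (bot M b) T) <;>
      by_cases h3 : q (M.mul a T) <;> by_cases h4 : q (M.mul b T) <;>
      simp_all [C3]
  · intro a ha
    have g5 := f5 a ha
    have g6 := f6 a ha
    unfold m
    rw [L.bneg, g5]
    by_cases h3 : q (M.mul a T) <;> by_cases h4 : q (M.mul (M.neg a) T) <;>
      simp_all [C3]


end Laws

/-- the variable `n` occurs in the term -/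
def occ (n : ℕ) : Tm → Prop
  | .var k => k = n
  | .one => False
  | .mul s t => occ n s ∨ occ n t
  | .neg s => occ n s

theorem eval_ind (n : ℕ) (s : Tm) :
    eval C3 (fun k => if k = n then 1 else 0) s = 0 ↔ ¬ occ n s := by
  induction s with
  | var k => by_cases h : k = n <;> simp [eval, occ, h]
  | one => simp [eval, occ, C3]
  | mul s t hs ht =>
    simp only [eval, occ, not_or, ← hs, ← ht]
    generalize eval C3 (fun k => if k = n then 1 else 0) s = a
    generalize eval C3 (fun k => if k = n then 1 else 0) t = b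
    revert a b; decide
  | neg s hs =>
    simp only [eval, occ, ← hs]
    generalize eval C3 (fun k => if k = n then 1 else 0) s = a
    revert a; decide

theorem occ_of_sat {s t : Tm} (h : Sat C3 (s, t)) (n : ℕ) : occ n s ↔ occ n t := by
  have h1 := eval_ind n s
  have h2 := eval_ind n t
  rw [h _] at h1
  exact not_iff_not.1 (h1.symm.trans h2)

namespace Laws

variable {A : Type u} {M : Alg A} (L : Laws M)

include L

theorem occ_le (v : ℕ → A) (n : ℕ) (s : Tm) (h : occ n s) :
    M.mul (top M (v n)) (top M (eval M v s)) = top M (eval M v s) := by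
  induction s with
  | var k => rw [show k = n from h]; exact L.idem _
  | one => exact h.elim
  | mul s t hs ht =>
    rw [show eval M v (.mul s t) = M.mul (eval M v s) (eval M v t) from rfl, L.tmul]
    rcases h with h | h
    · rw [← L.assoc, hs h]
    · rw [L.lcomm, ht h]
  | neg s hs =>
    rw [show eval M v (.neg s) = M.neg (eval M v s) from rfl, L.tneg]
    exact hs h

theorem top_le (v : ℕ → A) (s t : Tm) (h : ∀ n, occ n t → occ n s) :
    M.mul (top M (eval M v t)) (top M (eval M v s)) = top M (eval M v s) := by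
  induction t with
  | var k => exact L.occ_le v k s (h k rfl)
  | one =>
    rw [show eval M v .one = M.one from rfl, L.tone, L.one_mul]
  | mul t r ht hr =>
    rw [show eval M v (.mul t r) = M.mul (eval M v t) (eval M v r) from rfl, L.tmul, L.assoc,
      hr fun n hn => h n (Or.inr hn), ht fun n hn => h n (Or.inl hn)]
  | neg t ht =>
    rw [show eval M v (.neg t) = M.neg (eval M v t) from rfl, L.tneg]
    exact ht h

theorem eval_m (v : ℕ → A) {T : A} (hTT : top M T = T) (q : A → Prop)
    (hq : ∀ x y, top M x = T → top M y = T → (q (M.mul x y) ↔ q x ∧ q y))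
    (hqn : ∀ x, top M x = T → (q (M.neg x) ↔ ¬ q x)) (hqT : q T) (hqb : ¬ q (bot M T))
    (r : Tm) (h : ∀ n, occ n r → M.mul (top M (v n)) T = T) :
    M.mul (top M (eval M v r)) T = T ∧
      m M T q (eval M v r) = eval C3 (fun n => m M T q (v n)) r := by
  obtain ⟨h1, h2, h3⟩ := L.hom hTT q hq hqn hqT hqb
  induction r with
  | var k => exact ⟨h k rfl, rfl⟩
  | one => exact ⟨by rw [show eval M v .one = M.one from rfl, L.tone, L.one_mul], h1⟩
  | mul s t hs ht =>
    obtain ⟨a1, a2⟩ := hs fun n hn => h n (Or.inl hn)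
    obtain ⟨b1, b2⟩ := ht fun n hn => h n (Or.inr hn)
    refine ⟨?_, ?_⟩
    · rw [show eval M v (.mul s t) = M.mul (eval M v s) (eval M v t) from rfl, L.tmul, L.assoc,
        b1, a1]
    · rw [show eval M v (.mul s t) = M.mul (eval M v s) (eval M v t) from rfl, h2 _ _ a1 b1, a2, b2]
      rfl
  | neg s hs =>
    obtain ⟨a1, a2⟩ := hs h
    refine ⟨?_, ?_⟩
    · rw [show eval M v (.neg s) = M.neg (eval M v s) from rfl, L.tneg]; exact a1
    · rw [show eval M v (.neg s) = M.neg (eval M v s) from rfl, h3 _ a1, a2]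
      rfl

theorem sound (s t : Tm) (h : Sat C3 (s, t)) : Sat M (s, t) := by
  intro v
  change eval M v s = eval M v t
  by_contra hne
  have hocc := occ_of_sat h
  have hts : top M (eval M v t) = top M (eval M v s) := by
    have h1 := L.top_le v s t fun n hn => (hocc n).2 hn
    have h2 := L.top_le v t s fun n hn => (hocc n).1 hn
    rw [← h2, L.comm, h1]
  have hvT : ∀ n, occ n s → M.mul (top M (v n)) (top M (eval M v s)) = top M (eval M v s) :=
    fun n hn => L.occ_le v n s hn
  obtain ⟨q, hq, hqn, hqT, hqb, hsep⟩ := L.sep (T := top M (eval M v s))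
    (Fib.mk (eval M v s) _ rfl) (Fib.mk (eval M v t) _ hts)
    (fun he => hne (congrArg Subtype.val he))
  have hTT : top M (top M (eval M v s)) = top M (eval M v s) := L.ttop _
  obtain ⟨-, e1⟩ := L.eval_m v hTT q hq hqn hqT hqb s hvT
  obtain ⟨-, e2⟩ := L.eval_m v hTT q hq hqn hqT hqb t fun n hn => hvT n ((hocc n).2 hn)
  have e3 : m M (top M (eval M v s)) q (eval M v s) = m M (top M (eval M v s)) q (eval M v t) := by
    rw [e1, e2]; exact h _
  apply hsep
  change q (eval M v s) ↔ q (eval M v t)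
  have g1 : ∀ w, top M w = top M (eval M v s) → M.mul w (top M (eval M v s)) = w :=
    fun w hw => L.mulT (Fib.mk w _ hw)
  have g2 : ∀ w, top M w = top M (eval M v s) →
      ¬ q (M.mul (bot M w) (top M (eval M v s))) := by
    intro w hw
    rw [g1 _ (by rw [L.tbot, hw])]
    have : bot M w = bot M (top M (eval M v s)) := by rw [← hw, L.btop]
    rw [this]; exact hqb
  unfold m at e3
  rw [if_neg (g2 _ rfl), if_neg (g2 _ hts), g1 _ rfl, g1 _ hts] at e3
  by_cases a1 : q (eval M v s) <;> by_cases a2 : q (eval M v t) <;> simp_all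

end Laws

/-- every algebra satisfying the basis satisfies all identities of `C₃ˢ` -/
theorem complete {A : Type u} (M : Alg A) (hM : ∀ e ∈ basis, Sat M e) (e : Tm × Tm)
    (h : Sat C3 e) : Sat M e :=
  (laws M hM).sound e.1 e.2 h

/-! equational logic -/

theorem eval_subst {A : Type u} (M : Alg A) (v : ℕ → A) (σ : ℕ → Tm) (s : Tm) :
    eval M v (s.subst σ) = eval M (fun n => eval M v (σ n)) s := by
  induction s with
  | var k => rfl
  | one => rfl
  | mul s t hs ht => simp only [Tm.subst, eval, hs, ht]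
  | neg s hs => simp only [Tm.subst, eval, hs]

theorem Deriv.sound {E : Set (Tm × Tm)} {A : Type u} (M : Alg A) (hM : ∀ e ∈ E, Sat M e)
    {s t : Tm} (h : Deriv E s t) : Sat M (s, t) := by
  induction h with
  | ax s t σ he =>
    intro v
    rw [eval_subst, eval_subst]
    exact hM _ he _
  | refl s => exact fun v => rfl
  | symm _ ih => exact fun v => (ih v).symm
  | trans _ _ ih1 ih2 => exact fun v => (ih1 v).trans (ih2 v)
  | mul _ _ ih1 ih2 => exact fun v => congrArg₂ M.mul (ih1 v) (ih2 v)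
  | neg _ ih => exact fun v => congrArg M.neg (ih v)

/-- the setoid of derivable identities -/
def std (E : Set (Tm × Tm)) : Setoid Tm := ⟨Deriv E, ⟨Deriv.refl, Deriv.symm, Deriv.trans⟩⟩

/-- the free algebra of the variety -/
def free (E : Set (Tm × Tm)) : Alg (Quotient (std E)) where
  mul := Quotient.map₂ Tm.mul fun _ _ h1 _ _ h2 => Deriv.mul h1 h2
  neg := Quotient.map Tm.neg fun _ _ h1 => Deriv.neg h1
  one := Quotient.mk (std E) Tm.one

theorem eval_free (E : Set (Tm × Tm)) (σ : ℕ → Tm) (s : Tm) :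
    eval (free E) (fun n => Quotient.mk (std E) (σ n)) s = Quotient.mk (std E) (s.subst σ) := by
  induction s with
  | var k => rfl
  | one => rfl
  | mul s t hs ht => simp only [eval, hs, ht]; rfl
  | neg s hs => simp only [eval, hs]; rfl

theorem subst_var (s : Tm) : s.subst Tm.var = s := by
  induction s with
  | var k => rfl
  | one => rfl
  | mul s t hs ht => simp only [Tm.subst, hs, ht]
  | neg s hs => simp only [Tm.subst, hs]

theorem free_sat (E : Set (Tm × Tm)) : ∀ e ∈ E, Sat (free E) e := by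
  intro e he v
  obtain ⟨σ, hσ⟩ : ∃ σ : ℕ → Tm, (fun n => Quotient.mk (std E) (σ n)) = v :=
    ⟨fun n => (v n).out, funext fun n => Quotient.out_eq (v n)⟩
  rw [← hσ, eval_free, eval_free]
  exact Quotient.sound (Deriv.ax e.1 e.2 σ he)

theorem deriv_iff (s t : Tm) : Deriv {e | e ∈ basis} s t ↔ Sat C3 (s, t) := by
  constructor
  · intro h
    exact h.sound C3 fun e he => basis_sat e he
  · intro h
    have h1 := complete (free {e | e ∈ basis}) (free_sat _) (s, t) h
      (fun n => Quotient.mk _ (Tm.var n))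
    simp only [eval_free, subst_var] at h1
    exact Quotient.exact h1

end Pool.Agent.Q116.C3S
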